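import Pool.Agent.Helper30.UP.St

/-! # Project UP, module CH: the chain of typical weights -/

set_option autoImplicit false

noncomputable section

namespace Pool.Agent.Helper36.UP

open Finset Pool.Agent.Helper30.UP
open scoped Classical

theorem hCH (hP : StPUR) (hT : StTW) : StCH := by
  intro K K₁ η ε hK hK₁ hη hStep hε hε8 hεη
  set Q : ℝ := K₁ * 2 ^ ⌈1 / ε⌉₊ with hQ
  have h2 : (1 : ℝ) ≤ 2 ^ ⌈1 / ε⌉₊ := one_le_pow₀ (by norm_num)
  have hQ1 : 1 ≤ Q := by
    rw [hQ]
    exact one_le_mul_of_one_le_of_one_le hK₁ h2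
  refine ⟨fun m => Q ^ m, fun m => one_le_pow₀ hQ1, ?_⟩
  intro c n D s hn hD hnK hdiv hF m
  have hn' : (1 : ℝ) ≤ n := by exact_mod_cast hn
  have hne : ∀ (m : ℕ) (W : Submodule (ZMod 2) (E c)), Q ^ m * (n : ℝ) ^ m < Nat.card W → W ≠ ⊥ := by
    intro m W h hW
    have h1 : (1 : ℝ) ≤ Q ^ m * (n : ℝ) ^ m :=
      one_le_mul_of_one_le_of_one_le (one_le_pow₀ hQ1) (one_le_pow₀ hn')
    rw [hW] at h
    have h3 : Nat.card (⊥ : Submodule (ZMod 2) (E c)) = 1 := by simp
    rw [h3] at h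
    push_cast at h
    linarith
  induction m with
  | zero =>
    intro W hW hlt
    obtain ⟨x, hxW, hx0, hx⟩ := hT K ε c n D s hK hε hε8 hD hnK hdiv hF W (hne 0 W hlt) hW
    refine ⟨{wt s x}, by simp, ?_, ?_⟩
    · intro w hw
      rw [mem_singleton] at hw
      subst hw
      exact ⟨hx0, x, hxW, rfl⟩
    · intro w hw
      rw [mem_singleton] at hw
      subst hw
      have := (abs_le.1 hx).1
      linarith
  | succ m ih =>
    intro W hW hlt
    have hneW := hne (m + 1) W hlt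
    obtain ⟨x, hxW, hx0, hx⟩ := hT K ε c n D s hK hε hε8 hD hnK hdiv hF W hneW hW
    have hPu8 : Pu s (1 / (8 * (K : ℝ) ^ 4)) W := fun v hv =>
      (hW v hv).trans (mul_le_mul_of_nonneg_right hε8 (Nat.cast_nonneg n))
    obtain ⟨W', hW'W, hc', hz'⟩ := hStep c n D s hD hnK hdiv hF W hneW hPu8
    obtain ⟨W'', hW''W', hPu'', hc''⟩ := hP ε hε c n s W'
    have hc2 : (Nat.card W' : ℝ) ≤ 2 ^ ⌈1 / ε⌉₊ * Nat.card W'' := by exact_mod_cast hc''
    have hQn : 0 < Q * n := by positivity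
    have hlt2 : Q ^ m * (n : ℝ) ^ m < Nat.card W'' := by
      have h3 : (Nat.card W : ℝ) ≤ (Q * n) * Nat.card W'' := by
        calc (Nat.card W : ℝ) ≤ K₁ * n * Nat.card W' := hc'
          _ ≤ K₁ * n * (2 ^ ⌈1 / ε⌉₊ * Nat.card W'') :=
              mul_le_mul_of_nonneg_left hc2 (by positivity)
          _ = (Q * n) * Nat.card W'' := by rw [hQ]; ring
      have h4 : (Q * n) * (Q ^ m * (n : ℝ) ^ m) < (Q * n) * Nat.card W'' := by
        calc (Q * n) * (Q ^ m * (n : ℝ) ^ m) = Q ^ (m + 1) * (n : ℝ) ^ (m + 1) := by ring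
          _ < Nat.card W := hlt
          _ ≤ _ := h3
      exact lt_of_mul_lt_mul_left h4 hQn.le
    obtain ⟨X, hXc, hX1, hX2⟩ := ih W'' hPu'' hlt2
    have hzc : (zc s W' : ℝ) ≤ zc s W'' := by
      have h5 : zc s W' ≤ zc s W'' := by
        unfold zc
        refine card_le_card fun i hi => ?_
        rw [mem_filter] at hi ⊢
        exact ⟨hi.1, fun y hy => hi.2 y (hW''W' hy)⟩
      exact_mod_cast h5
    have hb1 := abs_le.1 hx
    have hηn : 0 < η * n := by positivity
    have hεn : 8 * ε * (K : ℝ) ^ 2 * n ≤ η * n :=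
      mul_le_mul_of_nonneg_right hεη (Nat.cast_nonneg n)
    have hXb : ∀ w ∈ X, 2 * (w : ℝ) ≤ n - zc s W - η * n + 2 * ε * (K : ℝ) ^ 2 * n := by
      intro w hw
      have := hX2 w hw
      linarith
    have hnot : wt s x ∉ X := by
      intro hmem
      have h6 := hXb _ hmem
      have h7 := hb1.2
      linarith
    refine ⟨insert (wt s x) X, ?_, ?_, ?_⟩
    · rw [card_insert_of_notMem hnot, hXc]
    · intro w hw
      rw [mem_insert] at hw
      rcases hw with rfl | hw
      · exact ⟨hx0, x, hxW, rfl⟩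
      · obtain ⟨h8, y, hy, hy2⟩ := hX1 w hw
        exact ⟨h8, y, hW'W (hW''W' hy), hy2⟩
    · intro w hw
      rw [mem_insert] at hw
      rcases hw with rfl | hw
      · have := hb1.1
        linarith
      · have := hXb w hw
        linarith

end Pool.Agent.Helper36.UP
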