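import Pool.Agent.Helper9.UP.StC

/-! # Project UP (MP_d466de), module CN: counting in residue classes -/

set_option autoImplicit false

noncomputable section

namespace Pool.Agent.Helper36.UP

open Finset Polynomial Pool.Agent.Helper9.UP

/-- the value at a residue -/
theorem cn_mod (f : ℤ[X]) (a m : ℕ) :
    (a : ℤ) ∣ f.eval (m : ℤ) ↔ (a : ℤ) ∣ f.eval ((m % a : ℕ) : ℤ) := by
  have h1 : ((m : ℤ) - ((m % a : ℕ) : ℤ)) ∣ f.eval (m : ℤ) - f.eval ((m % a : ℕ) : ℤ) :=
    Polynomial.sub_dvd_eval_sub _ _ f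
  have h2 : (a : ℤ) ∣ (m : ℤ) - ((m % a : ℕ) : ℤ) := by
    push_cast
    exact Int.dvd_self_sub_emod
  have h3 : (a : ℤ) ∣ f.eval (m : ℤ) - f.eval ((m % a : ℕ) : ℤ) := h2.trans h1
  constructor
  · intro h
    have := dvd_sub h h3
    rwa [sub_sub_cancel] at this
  · intro h
    have := dvd_add h3 h
    rwa [sub_add_cancel] at this

theorem cn_rho_one (f : ℤ[X]) : rho f 1 = 1 := by
  unfold rho
  rw [Finset.range_one, Finset.filter_singleton, if_pos (by simp), Finset.card_singleton]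

theorem cn_rho_mul (f : ℤ[X]) {a b : ℕ} (ha : 0 < a) (hb : 0 < b) (hab : Nat.Coprime a b) :
    rho f (a * b) = rho f a * rho f b := by
  unfold rho
  rw [← Finset.card_product]
  have key : ∀ r : ℕ, ((a * b : ℕ) : ℤ) ∣ f.eval (r : ℤ) ↔
      (a : ℤ) ∣ f.eval (r : ℤ) ∧ (b : ℤ) ∣ f.eval (r : ℤ) := by
    intro r
    push_cast
    constructor
    · intro h
      exact ⟨(dvd_mul_right _ _).trans h, (dvd_mul_left _ _).trans h⟩
    · rintro ⟨h1, h2⟩
      exact IsCoprime.mul_dvd (Nat.isCoprime_iff_coprime.2 hab) h1 h2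
  refine Finset.card_bij' (fun r _ => (r % a, r % b))
    (fun z _ => (Nat.chineseRemainder hab z.1 z.2 : ℕ)) ?_ ?_ ?_ ?_
  · intro r hr
    rw [mem_filter, mem_range] at hr
    rw [mem_product, mem_filter, mem_filter, mem_range, mem_range]
    obtain ⟨h1, h2⟩ := (key r).1 hr.2
    exact ⟨⟨Nat.mod_lt _ ha, (cn_mod f a r).1 h1⟩, ⟨Nat.mod_lt _ hb, (cn_mod f b r).1 h2⟩⟩
  · intro z hz
    rw [mem_product, mem_filter, mem_filter, mem_range, mem_range] at hz
    obtain ⟨⟨h1, h2⟩, ⟨h3, h4⟩⟩ := hz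
    rw [mem_filter, mem_range]
    have hc := (Nat.chineseRemainder hab z.1 z.2).2
    refine ⟨Nat.chineseRemainder_lt_mul hab z.1 z.2 ha.ne' hb.ne', ?_⟩
    rw [key]
    constructor
    · rw [cn_mod f a]
      have : (Nat.chineseRemainder hab z.1 z.2 : ℕ) % a = z.1 := by
        have h5 := hc.1
        unfold Nat.ModEq at h5
        rw [h5, Nat.mod_eq_of_lt h1]
      rw [this]
      exact h2
    · rw [cn_mod f b]
      have : (Nat.chineseRemainder hab z.1 z.2 : ℕ) % b = z.2 := by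
        have h5 := hc.2
        unfold Nat.ModEq at h5
        rw [h5, Nat.mod_eq_of_lt h3]
      rw [this]
      exact h4
  · intro r hr
    rw [mem_filter, mem_range] at hr
    have hc := (Nat.chineseRemainder hab (r % a) (r % b)).2
    have h1 : (Nat.chineseRemainder hab (r % a) (r % b) : ℕ) ≡ r [MOD a] :=
      hc.1.trans (Nat.mod_modEq r a)
    have h2 : (Nat.chineseRemainder hab (r % a) (r % b) : ℕ) ≡ r [MOD b] :=
      hc.2.trans (Nat.mod_modEq r b)
    have h3 : (Nat.chineseRemainder hab (r % a) (r % b) : ℕ) ≡ r [MOD a * b] :=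
      (Nat.modEq_and_modEq_iff_modEq_mul hab).1 ⟨h1, h2⟩
    exact h3.eq_of_lt_of_lt
      (Nat.chineseRemainder_lt_mul hab _ _ ha.ne' hb.ne') hr.1
  · intro z hz
    rw [mem_product, mem_filter, mem_filter, mem_range, mem_range] at hz
    obtain ⟨⟨h1, h2⟩, ⟨h3, h4⟩⟩ := hz
    have hc := (Nat.chineseRemainder hab z.1 z.2).2
    refine Prod.ext ?_ ?_
    · have h5 := hc.1
      unfold Nat.ModEq at h5
      show (Nat.chineseRemainder hab z.1 z.2 : ℕ) % a = z.1
      rw [h5, Nat.mod_eq_of_lt h1]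
    · have h5 := hc.2
      unfold Nat.ModEq at h5
      show (Nat.chineseRemainder hab z.1 z.2 : ℕ) % b = z.2
      rw [h5, Nat.mod_eq_of_lt h3]

theorem cn_rho_prod (f : ℤ[X]) (T : Finset ℕ) (hT : ∀ p ∈ T, p.Prime) :
    rho f (∏ p ∈ T, p) = ∏ p ∈ T, rho f p := by
  induction T using Finset.induction_on with
  | empty => rw [Finset.prod_empty, Finset.prod_empty]; exact cn_rho_one f
  | insert p T hp ih =>
    rw [Finset.prod_insert hp, Finset.prod_insert hp]
    have hTp : ∀ p' ∈ T, p'.Prime := fun p' h => hT p' (mem_insert_of_mem h)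
    have hpp : p.Prime := hT p (mem_insert_self _ _)
    rw [cn_rho_mul f hpp.pos (Finset.prod_pos fun p' h => (hTp p' h).pos), ih hTp]
    refine Nat.Coprime.prod_right fun p' h => ?_
    rw [Nat.coprime_primes hpp (hTp p' h)]
    rintro rfl
    exact hp h

theorem cn_rho_sqf (f : ℤ[X]) {q : ℕ} (hq : Squarefree q) :
    rho f q = ∏ p ∈ q.primeFactors, rho f p := by
  conv_lhs => rw [← Nat.prod_primeFactors_of_squarefree hq]
  exact cn_rho_prod f _ fun p hp => Nat.prime_of_mem_primeFactors hp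

/-- number of elements of a class -/
theorem cn_class (N c M : ℕ) (hM : 0 < M) :
    |(((Ioc N (2 * N)).filter (fun m => m ≡ c [MOD M])).card : ℝ) - (N : ℝ) / M| ≤ 1 := by
  have h1 := Nat.Ioc_filter_modEq_card N (2 * N) hM c
  have hMq : (0 : ℚ) < M := by exact_mod_cast hM
  set x : ℚ := (((2 * N : ℕ) : ℚ) - c) / M with hx
  set y : ℚ := ((N : ℚ) - c) / M with hy
  have hxy : x - y = (N : ℚ) / M := by
    rw [hx, hy, ← sub_div]
    congr 1
    push_cast
    ring
  have hNM : 0 ≤ (N : ℚ) / M := by positivity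
  have hfl : ⌊y⌋ ≤ ⌊x⌋ := Int.floor_le_floor (by linarith)
  rw [max_eq_left (by omega)] at h1
  have h2 : ((((Ioc N (2 * N)).filter (fun m => m ≡ c [MOD M])).card : ℕ) : ℚ)
      = (⌊x⌋ : ℚ) - ⌊y⌋ := by
    have h3 : (((((Ioc N (2 * N)).filter (fun m => m ≡ c [MOD M])).card : ℕ) : ℤ) : ℚ)
      = (((⌊x⌋ - ⌊y⌋ : ℤ)) : ℚ) := by rw [h1]
    push_cast at h3
    exact h3
  have h4 : |((((Ioc N (2 * N)).filter (fun m => m ≡ c [MOD M])).card : ℕ) : ℚ)
      - (N : ℚ) / M| ≤ 1 := by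
    rw [h2, ← hxy, abs_le]
    have a1 := Int.floor_le x
    have a2 := Int.lt_floor_add_one x
    have a3 := Int.floor_le y
    have a4 := Int.lt_floor_add_one y
    constructor <;> linarith
  have h5 := (Rat.cast_le (K := ℝ)).2 h4
  push_cast at h5
  exact h5

theorem hCN : StCN := by
  intro f m0 N q hm0 hq hp
  have hP : 0 < PM f := primorial_pos _
  have hq0 : 0 < q := Nat.pos_of_ne_zero hq.ne_zero
  have hcop : Nat.Coprime (PM f) q := by
    refine Nat.coprime_of_dvd ?_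
    intro p hpp h1 h2
    have h3 := hp p hpp h2
    have h4 : p ≤ 2 * f.natDegree := hpp.dvd_primorial_iff.1 h1
    omega
  -- the roots
  set Rt : Finset ℕ := (range q).filter (fun r : ℕ => (q : ℤ) ∣ f.eval (r : ℤ)) with hRt
  have hcard : (((AA f m0 N).filter (fun m : ℕ => (q : ℤ) ∣ f.eval (m : ℤ))).card)
      = ∑ r ∈ Rt, ((Ioc N (2 * N)).filter
        (fun m => m ≡ (Nat.chineseRemainder hcop m0 r : ℕ) [MOD PM f * q])).card := by
    rw [Finset.card_eq_sum_card_fiberwise (f := fun m => m % q) (t := Rt)]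
    · refine Finset.sum_congr rfl fun r hr => ?_
      congr 1
      ext m
      rw [hRt, mem_filter, mem_range] at hr
      unfold AA
      simp only [mem_filter, mem_Ioc]
      have hc := (Nat.chineseRemainder hcop m0 r).2
      constructor
      · rintro ⟨⟨⟨h1, h2⟩, -⟩, h4⟩
        refine ⟨h1, ?_⟩
        refine (Nat.modEq_and_modEq_iff_modEq_mul hcop).1 ⟨?_, ?_⟩
        · refine Nat.ModEq.trans ?_ hc.1.symm
          unfold Nat.ModEq
          rw [h2, Nat.mod_eq_of_lt hm0]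
        · refine Nat.ModEq.trans ?_ hc.2.symm
          unfold Nat.ModEq
          rw [h4, Nat.mod_eq_of_lt hr.1]
      · rintro ⟨h1, h2⟩
        obtain ⟨h3, h4⟩ := (Nat.modEq_and_modEq_iff_modEq_mul hcop).2 h2
        have h5 := h3.trans hc.1
        have h6 := h4.trans hc.2
        unfold Nat.ModEq at h5 h6
        rw [Nat.mod_eq_of_lt hm0] at h5
        rw [Nat.mod_eq_of_lt hr.1] at h6
        refine ⟨⟨⟨h1, h5⟩, ?_⟩, h6⟩
        rw [cn_mod, h6]
        exact hr.2
    · intro m hm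
      have hm' : m ∈ (AA f m0 N).filter (fun m : ℕ => (q : ℤ) ∣ f.eval (m : ℤ)) := hm
      rw [mem_filter] at hm'
      show m % q ∈ (Rt : Set ℕ)
      rw [Finset.mem_coe, hRt, mem_filter, mem_range]
      exact ⟨Nat.mod_lt _ hq0, (cn_mod f q m).1 hm'.2⟩
  have hRc : (Rt.card : ℝ) = ∏ p ∈ q.primeFactors, (rho f p : ℝ) := by
    have h1 : Rt.card = rho f q := rfl
    rw [h1, cn_rho_sqf f hq]
    push_cast
    rfl
  have hGG : GG (gf f) q = (Rt.card : ℝ) / q := by
    rw [hRc]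
    unfold GG
    have h1 : ∀ p ∈ q.primeFactors, gf f p = (rho f p : ℝ) / p := by
      intro p hpq
      unfold gf
      have h2 := hp p (Nat.prime_of_mem_primeFactors hpq) (Nat.dvd_of_mem_primeFactors hpq)
      rw [if_neg (by omega)]
    rw [Finset.prod_congr rfl h1, Finset.prod_div_distrib]
    congr 1
    have h3 := Nat.prod_primeFactors_of_squarefree hq
    rw [← Nat.cast_prod]
    exact congrArg Nat.cast h3
  rw [hcard, hGG, ← hRc]
  have hmain : (N : ℝ) / PM f * ((Rt.card : ℝ) / q)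
      = ∑ r ∈ Rt, (N : ℝ) / ((PM f * q : ℕ) : ℝ) := by
    rw [Finset.sum_const, nsmul_eq_mul]
    push_cast
    have h1 : (PM f : ℝ) ≠ 0 := by exact_mod_cast hP.ne'
    have h2 : (q : ℝ) ≠ 0 := by exact_mod_cast hq0.ne'
    field_simp
  rw [hmain]
  push_cast
  rw [← Finset.sum_sub_distrib]
  calc |∑ r ∈ Rt, ((((Ioc N (2 * N)).filter
        (fun m => m ≡ (Nat.chineseRemainder hcop m0 r : ℕ) [MOD PM f * q])).card : ℝ)
          - (N : ℝ) / ((PM f : ℝ) * q))|
      ≤ ∑ r ∈ Rt, |((((Ioc N (2 * N)).filter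
        (fun m => m ≡ (Nat.chineseRemainder hcop m0 r : ℕ) [MOD PM f * q])).card : ℝ)
          - (N : ℝ) / ((PM f : ℝ) * q))| := Finset.abs_sum_le_sum_abs _ _
    _ ≤ ∑ r ∈ Rt, 1 := by
        refine Finset.sum_le_sum fun r _ => ?_
        have h := cn_class N (Nat.chineseRemainder hcop m0 r : ℕ) (PM f * q) (Nat.mul_pos hP hq0)
        push_cast at h
        exact h
    _ = (Rt.card : ℝ) := by rw [Finset.sum_const, nsmul_eq_mul, mul_one]

end Pool.Agent.Helper36.UP
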