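import Pool.Agent.Helper9.UP.StS

/-! # Project UP (MP_d466de), module RS: sums over one range -/

set_option autoImplicit false

noncomputable section

namespace Pool.Agent.Helper36.UP

open Finset Polynomial Pool.Agent.Helper9.UP
open Pool.Agent.Helper18.TR (idx Qi Yy StSym StEsymm StRange)

theorem rs_gf_nonneg (f : ℤ[X]) (p : ℕ) : 0 ≤ gf f p := by
  unfold gf
  split_ifs
  · exact le_rfl
  · positivity

theorem rs_range {w p i : ℕ} (hp : 2 ≤ p) (hpw : p ≤ w) (h : idx w p = i) :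
    Real.log p ≤ Real.log w / 2 ^ i ∧ Real.log w / 2 ^ i < 2 * Real.log p := by
  unfold idx at h
  have hw : w ≠ 0 := by omega
  have hm1 : 1 ≤ Nat.log p w := by
    rw [Nat.one_le_iff_ne_zero]
    intro h0
    rw [Nat.log_eq_zero_iff] at h0
    omega
  have h2 : 2 ^ i ≤ Nat.log p w := by
    rw [← h]
    exact Nat.pow_log_le_self 2 (by omega)
  have h3 : Nat.log p w < 2 ^ (i + 1) := by
    rw [← h]
    exact Nat.lt_pow_succ_log_self (by norm_num) _
  have h4 : p ^ (2 ^ i) ≤ w :=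
    (Nat.pow_le_pow_right (by omega) h2).trans (Nat.pow_log_le_self p hw)
  have h5 : w < p ^ (2 ^ (i + 1)) := by
    calc w < p ^ (Nat.log p w + 1) := Nat.lt_pow_succ_log_self (by omega) _
      _ ≤ p ^ (2 ^ (i + 1)) := Nat.pow_le_pow_right (by omega) (by omega)
  have hp0 : (0 : ℝ) < p := by exact_mod_cast (by omega : 0 < p)
  have hw0 : (0 : ℝ) < w := by exact_mod_cast (by omega : 0 < w)
  have h6 : (2 : ℝ) ^ i * Real.log p ≤ Real.log w := by
    have : ((p : ℝ) ^ (2 ^ i)) ≤ w := by exact_mod_cast h4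
    have h7 := Real.log_le_log (by positivity) this
    rw [Real.log_pow] at h7
    push_cast at h7
    exact h7
  have h8 : Real.log w < (2 : ℝ) ^ (i + 1) * Real.log p := by
    have : (w : ℝ) < (p : ℝ) ^ (2 ^ (i + 1)) := by exact_mod_cast h5
    have h7 := Real.log_lt_log hw0 this
    rw [Real.log_pow] at h7
    push_cast at h7
    exact h7
  constructor
  · rw [le_div_iff₀ (by positivity)]
    linarith
  · rw [div_lt_iff₀ (by positivity)]
    calc Real.log w < (2 : ℝ) ^ (i + 1) * Real.log p := h8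
      _ = 2 * Real.log p * 2 ^ i := by ring

theorem hRS (hMT : StMT) (hRO : StRO) (hRg : StRange) : StRS := by
  obtain ⟨C₀, Λ₀, hC₀, hΛ₀, hM⟩ := hMT
  obtain ⟨C₁, hC₁, hR⟩ := hRg
  refine ⟨max C₀ C₁, Λ₀, le_max_of_le_left hC₀, hΛ₀, ?_⟩
  intro Λ hΛ f hf w i hw hlw
  have hΛ1 : 1 ≤ Λ := hΛ₀.trans hΛ
  have hQ : ∀ p ∈ Qf f w, p.Prime ∧ p ≤ w ∧ 2 * f.natDegree < p := by
    intro p hp
    unfold Qf at hp
    rw [mem_filter, mem_Ioc] at hp
    exact ⟨hp.2, hp.1.2, hp.1.1⟩
  have hgf : ∀ p ∈ Qf f w, gf f p ≤ Λ * (1 / (p : ℝ)) := by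
    intro p hp
    obtain ⟨h1, -, h3⟩ := hQ p hp
    unfold gf
    rw [if_neg (by omega)]
    have h4 : ((rho f p : ℕ) : ℝ) ≤ Λ :=
      (Nat.cast_le.2 (hRO Λ f hf p h1)).trans hf.degLe
    rw [mul_one_div]
    exact div_le_div_of_nonneg_right h4 (Nat.cast_nonneg p)
  have hsub : ∀ p ∈ Qi w (Qf f w) i, p ∈ Qf f w ∧ idx w p = i := by
    intro p hp
    unfold Qi at hp
    rw [mem_filter] at hp
    exact hp
  constructor
  · calc ∑ p ∈ Qi w (Qf f w) i, gf f p ≤ ∑ p ∈ Qi w (Qf f w) i, Λ * (1 / (p : ℝ)) :=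
        sum_le_sum fun p hp => hgf p (hsub p hp).1
      _ = Λ * ∑ p ∈ Qi w (Qf f w) i, 1 / (p : ℝ) := by rw [mul_sum]
      _ ≤ Λ * C₁ := mul_le_mul_of_nonneg_left
          (hR w (Qf f w) (fun p hp => ⟨(hQ p hp).1, (hQ p hp).2.1⟩) i) (by linarith)
      _ ≤ max C₀ C₁ * Λ := by
          rw [mul_comm]
          exact mul_le_mul_of_nonneg_right (le_max_right _ _) (by linarith)
  · intro ht
    set t : ℝ := Real.log w / 2 ^ i with htd
    have hΛ3 : (0 : ℝ) < Λ ^ 3 := by positivity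
    have ht1 : C₀ * Λ ^ 3 ≤ t :=
      (mul_le_mul_of_nonneg_right (le_max_left C₀ C₁) hΛ3.le).trans ht
    have ht0 : 0 < t := lt_of_lt_of_le (by positivity) ht1
    have htw : t ≤ Real.log w := by
      rw [htd]
      refine div_le_self (Real.log_nonneg (by exact_mod_cast (by omega : 1 ≤ w))) ?_
      exact one_le_pow₀ (by norm_num)
    set Y : ℕ := ⌊Real.exp t⌋₊ with hY
    have hY1 : 1 ≤ Y := by
      rw [hY, Nat.one_le_floor_iff]
      exact Real.one_le_exp ht0.le
    have hlY : Real.log Y ≤ t := by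
      rw [Real.log_le_iff_le_exp (by exact_mod_cast hY1)]
      exact Nat.floor_le (Real.exp_pos t).le
    have hS := (hM Λ hΛ f hf).1 Y hY1
      (hlY.trans (htw.trans (hlw.trans (Real.exp_le_exp.2 (by linarith)))))
    have hS2 : Sf f Y ≤ 2 * t := by linarith
    have h1 : ∑ p ∈ Qi w (Qf f w) i, gf f p ≤ ∑ p ∈ Qi w (Qf f w) i, 2 / t * (gf f p * Real.log p) := by
      refine sum_le_sum fun p hp => ?_
      obtain ⟨hp1, hp2⟩ := hsub p hp
      obtain ⟨hq1, hq2, -⟩ := hQ p hp1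
      have h2 := (rs_range hq1.two_le hq2 hp2).2
      rw [← htd] at h2
      have h3 : 1 ≤ 2 / t * Real.log p := by
        rw [div_mul_eq_mul_div, le_div_iff₀ ht0]
        linarith
      calc gf f p = gf f p * 1 := (mul_one _).symm
        _ ≤ gf f p * (2 / t * Real.log p) := mul_le_mul_of_nonneg_left h3 (rs_gf_nonneg f p)
        _ = 2 / t * (gf f p * Real.log p) := by ring
    have h4 : ∑ p ∈ Qi w (Qf f w) i, gf f p * Real.log p ≤ Sf f Y := by
      unfold Sf
      refine sum_le_sum_of_subset_of_nonneg ?_ ?_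
      · intro p hp
        obtain ⟨hp1, hp2⟩ := hsub p hp
        obtain ⟨hq1, hq2, -⟩ := hQ p hp1
        have h2 := (rs_range hq1.two_le hq2 hp2).1
        rw [← htd] at h2
        rw [mem_filter, mem_range]
        refine ⟨Nat.lt_succ_of_le ?_, hq1⟩
        rw [hY]
        refine Nat.le_floor ?_
        rw [← Real.log_le_iff_le_exp (by exact_mod_cast hq1.pos)]
        exact h2
      · intro p hp _
        rw [mem_filter] at hp
        exact mul_nonneg (rs_gf_nonneg f p)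
          (Real.log_nonneg (by exact_mod_cast hp.2.one_lt.le))
    calc ∑ p ∈ Qi w (Qf f w) i, gf f p
        ≤ ∑ p ∈ Qi w (Qf f w) i, 2 / t * (gf f p * Real.log p) := h1
      _ = 2 / t * ∑ p ∈ Qi w (Qf f w) i, gf f p * Real.log p := by rw [mul_sum]
      _ ≤ 2 / t * (2 * t) := mul_le_mul_of_nonneg_left (h4.trans hS2) (by positivity)
      _ = 4 := by field_simp; norm_num

end Pool.Agent.Helper36.UP
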