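import Pool.Agent.Helper9.UP.StW

/-! # Project UP (MP_d466de), module TV: trivial weights -/

set_option autoImplicit false

noncomputable section

namespace Pool.Agent.Helper36.UP

open Finset Pool.Agent.Helper9.UP
open Pool.Agent.Helper9.TW (gm Ax GUp GLo)

/-- the delta function at `1` -/
def tvD (q : ℕ) : ℝ := if q = 1 then 1 else 0

theorem tv_pr (X ω : ℝ) (j0 : ℕ) : Pr X ω j0 j0 = ∅ := by
  unfold Pr
  rw [Finset.Ico_self, Finset.biUnion_empty]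

theorem tv_pr_mono (X ω : ℝ) (j0 j p : ℕ) (h : p ∈ Pr X ω j0 j) : p ∈ Pr X ω j0 (j + 1) := by
  unfold Pr at h ⊢
  rw [mem_biUnion] at h ⊢
  obtain ⟨i, hi, hp⟩ := h
  rw [mem_Ico] at hi
  exact ⟨i, mem_Ico.2 ⟨hi.1, by omega⟩, hp⟩

theorem tv_ind_le_one (X ω : ℝ) (j0 j n : ℕ) : ind X ω j0 j n ≤ 1 := by
  unfold ind
  split_ifs <;> norm_num

theorem tv_ind_nonneg (X ω : ℝ) (j0 j n : ℕ) : 0 ≤ ind X ω j0 j n := by
  unfold ind
  split_ifs <;> norm_num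

theorem tv_ind_self (X ω : ℝ) (j0 n : ℕ) : ind X ω j0 j0 n = 1 := by
  unfold ind
  rw [if_neg]
  rintro ⟨p, hp, -⟩
  rw [tv_pr] at hp
  exact absurd hp (Finset.notMem_empty p)

theorem tv_ind_mono (X ω : ℝ) (j0 j n : ℕ) : ind X ω j0 (j + 1) n ≤ ind X ω j0 j n := by
  by_cases h : ∃ p ∈ Pr X ω j0 j, p ∣ n
  · have h2 : ∃ p ∈ Pr X ω j0 (j + 1), p ∣ n := by
      obtain ⟨p, hp, hpn⟩ := h
      exact ⟨p, tv_pr_mono X ω j0 j p hp, hpn⟩
    unfold ind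
    rw [if_pos h, if_pos h2]
  · have h3 : ind X ω j0 j n = 1 := by
      unfold ind
      rw [if_neg h]
    rw [h3]
    exact tv_ind_le_one X ω j0 (j + 1) n

theorem tv_wt (X ω x : ℝ) (j0 j : ℕ) (hX : 2 ≤ X) (hx : 0 ≤ x) : Wt X ω j0 j x 1 tvD := by
  intro q
  constructor
  · unfold tvD
    split_ifs
    · rw [abs_one]
    · rw [abs_zero]; norm_num
  · intro hq
    have h1 : q = 1 := by
      by_contra h
      apply hq
      unfold tvD
      rw [if_neg h]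
    subst h1
    refine ⟨⟨squarefree_one, ?_⟩, ?_⟩
    · intro p hp hp1
      exact absurd (Nat.dvd_one.1 hp1) hp.one_lt.ne'
    · rw [Nat.cast_one]
      exact Real.one_le_rpow (by linarith) hx

theorem tv_sum (n : ℕ) (hn : 1 ≤ n) : ∑ q ∈ n.divisors, tvD q = 1 := by
  unfold tvD
  rw [Finset.sum_ite_eq' n.divisors 1 (fun _ => (1 : ℝ)), if_pos]
  rw [Nat.mem_divisors]
  exact ⟨one_dvd n, by omega⟩

theorem tv_ms (X : ℝ) (g : ℕ → ℝ) (hX : 2 ≤ X) : ms X g tvD = 1 := by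
  unfold ms tvD
  have h1 : ∀ q ∈ range (⌊X ^ 2⌋₊ + 1), (if q = 1 then (1 : ℝ) else 0) * GG g q
      = if q = 1 then GG g q else 0 := by
    intro q _
    split_ifs
    · rw [one_mul]
    · rw [zero_mul]
  rw [Finset.sum_congr rfl h1, Finset.sum_ite_eq', if_pos]
  · unfold GG
    rw [Nat.primeFactors_one, Finset.prod_empty]
  · rw [mem_range]
    have h2 : 1 ≤ ⌊X ^ 2⌋₊ := by
      rw [Nat.one_le_floor_iff]
      nlinarith
    omega

theorem hTV : StTV := by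
  intro ω j0 Nm N j μ hω hj
  have hx : 0 ≤ (N : ℝ) * ω := mul_nonneg (Nat.cast_nonneg N) hω.le
  refine ⟨?_, ?_, ?_, ?_⟩
  · refine ⟨1, zero_le_one, fun η hη => ⟨1, one_pos, fun X g hR => ⟨tvD, ?_, ?_, ?_⟩⟩⟩
    · exact tv_wt X ω _ j0 j0 hR.1 hx
    · intro n hn
      rw [tv_sum n hn]
      exact tv_ind_le_one X ω j0 j0 n
    · rw [tv_ms X g hR.1]
      linarith
  · refine ⟨1, zero_le_one, fun η hη => ⟨1, one_pos, fun X g hR => ⟨tvD, ?_, ?_, ?_⟩⟩⟩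
    · exact tv_wt X ω _ j0 j0 hR.1 hx
    · intro n hn
      rw [tv_sum n hn, tv_ind_self]
    · rw [tv_ms X g hR.1]
      linarith
  · rintro ⟨B, hB, h⟩
    refine ⟨B, hB, fun η hη => ?_⟩
    obtain ⟨ε, hε, h'⟩ := h η hη
    refine ⟨ε, hε, fun X g hR => ?_⟩
    obtain ⟨l, h1, h2, h3⟩ := h' X g hR
    refine ⟨l, ?_, ?_, h3⟩
    · intro q
      refine ⟨(h1 q).1, fun hq => ?_⟩
      obtain ⟨⟨h4, h5⟩, h6⟩ := (h1 q).2 hq
      exact ⟨⟨h4, fun p hp hpq => tv_pr_mono X ω j0 j p (h5 p hp hpq)⟩, h6⟩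
    · intro n hn
      exact (tv_ind_mono X ω j0 j n).trans (h2 n hn)
  · refine ⟨0, le_rfl, fun η hη => ⟨1, one_pos, fun X g hR => ⟨fun _ => 0, ?_, ?_, ?_⟩⟩⟩
    · intro q
      refine ⟨by rw [abs_zero], fun hq => absurd rfl hq⟩
    · intro n _
      rw [Finset.sum_const_zero]
      exact tv_ind_nonneg X ω j0 j n
    · unfold ms
      simp only [zero_mul, Finset.sum_const_zero]
      linarith

end Pool.Agent.Helper36.UP
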